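import Pool.Agent.H78.Arr

namespace Pool.Agent.Results.MP_02c618_ag.NoneFails

open Pool.Agent.H78.Arr

/-- `P(n)` fails for every `n ≥ 2`. -/
theorem result (n : ℕ) (hn : 2 ≤ n) : ¬ P n :=
  not_P n hn

end Pool.Agent.Results.MP_02c618_ag.NoneFails
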